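import Mathlib
import Pool.Agent.Lib.MP_1e45a6_gt.Defs
import Pool.Agent.Lib.MP_1e45a6_gt.Proof

namespace Pool.Agent.Results.MP_1e45a6_gt.HFCStronglyD

open Pool.Agent.Lib.MP_1e45a6_gt

universe u

/-- Every HFC subspace `X` of a Cantor cube `2^ι` (product topology, `X` with the subspace
topology; `ι` any linearly ordered index set, in particular an uncountable cardinal with its
well-order) is strongly D.  No hypothesis on closures of countable sets is needed. -/
theorem result {ι : Type u} [LinearOrder ι] (X : Set (ι → Bool)) (hX : IsHFC X) :
    IsStronglyD X :=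
  main hX

end Pool.Agent.Results.MP_1e45a6_gt.HFCStronglyD
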